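import Mathlib

/-! MP_66bcf1_co: signed Johnson and Kneser graphs, `t = -2`, all `k`, `n` large.
Text of the proof: `team-store get helper86_SJ_proof.md`. -/

open Finset

namespace SJ

/-- the support -/
def supp {n : ℕ} (v : Fin n → ℤ) : Finset (Fin n) := univ.filter (fun i => v i ≠ 0)

/-- vectors with entries `-1, 0, 1` and exactly `k` nonzero entries -/
def IsV (n k : ℕ) (v : Fin n → ℤ) : Prop := (∀ i, v i = -1 ∨ v i = 0 ∨ v i = 1) ∧ #(supp v) = k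

/-- the dot product -/
def dot {n : ℕ} (u v : Fin n → ℤ) : ℤ := ∑ i, u i * v i

/-- independent in `J_±(n,k,-2)` -/
def IndJ (n k : ℕ) (F : Finset (Fin n → ℤ)) : Prop :=
  (∀ v ∈ F, IsV n k v) ∧ ∀ u ∈ F, ∀ v ∈ F, u ≠ v → dot u v ≠ -2

/-- independent in `K_±(n,k,-2)` -/
def IndK (n k : ℕ) (F : Finset (Fin n → ℤ)) : Prop :=
  (∀ v ∈ F, IsV n k v) ∧ ∀ u ∈ F, ∀ v ∈ F, u ≠ v → ¬ dot u v ≤ -2

/-- the goal -/
def GOALStm : Prop := ∀ k : ℕ, 3 ≤ k → ∃ n₀ : ℕ, ∀ n : ℕ, n₀ ≤ n → ∀ F, IndJ n k F →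
  ∃ F', IndK n k F' ∧ #F ≤ #F'

/-- `v` has at `x`, `y` a clashing pattern: the opposite pattern occurs in `F`, too -/
def ClashV {n : ℕ} (F : Finset (Fin n → ℤ)) (v : Fin n → ℤ) (x y : Fin n) : Prop :=
  v x ≠ 0 ∧ v y ≠ 0 ∧ ∃ w ∈ F, w x = - v x ∧ w y = - v y

open Classical in
/-- the members with support `S` -/
noncomputable def fib {n : ℕ} (F : Finset (Fin n → ℤ)) (S : Finset (Fin n)) :
    Finset (Fin n → ℤ) := F.filter (fun v => supp v = S)

open Classical in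
/-- supports of members with a clashing pattern -/
noncomputable def HH {n : ℕ} (k : ℕ) (F : Finset (Fin n → ℤ)) : Finset (Finset (Fin n)) :=
  (powersetCard k univ).filter (fun S => ∃ v ∈ F, supp v = S ∧ ∃ x y, x ≠ y ∧ ClashV F v x y)

open Classical in
/-- supports of at most one member -/
noncomputable def LL {n : ℕ} (k : ℕ) (F : Finset (Fin n → ℤ)) : Finset (Finset (Fin n)) :=
  (powersetCard k univ).filter (fun S => #(fib F S) ≤ 1)

/-- the exceptional supports -/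
noncomputable def EX {n : ℕ} (k : ℕ) (F : Finset (Fin n → ℤ)) : Finset (Finset (Fin n)) :=
  open Classical in HH k F ∪ LL k F

/-- `x → y`: both signs of `x` occur together with `y`, and `y` has always the sign `c` then -/
def Arc {n : ℕ} (F : Finset (Fin n → ℤ)) (x y : Fin n) : Prop :=
  x ≠ y ∧ (∃ v ∈ F, v x = 1 ∧ v y ≠ 0) ∧ (∃ v ∈ F, v x = -1 ∧ v y ≠ 0) ∧
    ∃ c : ℤ, (c = 1 ∨ c = -1) ∧ ∀ v ∈ F, v x ≠ 0 → v y ≠ 0 → v y = c

/-- package SRC: non-exceptional supports have a source (no independence needed) -/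
def SRCStm : Prop := ∀ (n k : ℕ) (F : Finset (Fin n → ℤ)), (∀ v ∈ F, IsV n k v) →
  ∀ S : Finset (Fin n), #S = k → S ∉ EX k F →
    #(fib F S) = 2 ∧ ∃ f ∈ S, ∀ y ∈ S, y ≠ f → Arc F f y

/-- package SUM -/
def SUMStm : Prop := ∀ (n k : ℕ) (F : Finset (Fin n → ℤ)), 3 ≤ k → (∀ v ∈ F, IsV n k v) →
  #F + #(LL k F) ≤ 2 * n.choose k + 2 ^ k * #(HH k F)

open Classical in
/-- the common dominators of `x`, `y` which avoid the clashing members -/
noncomputable def DD {n : ℕ} (F : Finset (Fin n → ℤ)) (x y : Fin n) : Finset (Fin n) :=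
  univ.filter (fun f => Arc F f x ∧ Arc F f y ∧ ∀ v ∈ F, ClashV F v x y → v f = 0)

open Classical in
/-- supports of members clashing at `x`, `y` -/
noncomputable def cP {n : ℕ} (F : Finset (Fin n → ℤ)) (x y : Fin n) : Finset (Finset (Fin n)) :=
  (F.filter (fun v => ClashV F v x y)).image supp

open Classical in
/-- exceptional supports containing `x`, `y` -/
noncomputable def exP {n : ℕ} (k : ℕ) (F : Finset (Fin n → ℤ)) (x y : Fin n) :
    Finset (Finset (Fin n)) := (EX k F).filter (fun S => x ∈ S ∧ y ∈ S)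

/-- package UP (uses independence): few supports clash at `x`, `y` -/
def UPStm : Prop := ∀ (n k : ℕ) (F : Finset (Fin n → ℤ)), 3 ≤ k → IndJ n k F →
  ∀ x y : Fin n, x ≠ y → ∀ v ∈ F, ClashV F v x y → ∀ μ : ℕ, #(DD F x y) + 2 + μ = n →
    #(cP F x y) ≤ 4 * ((k - 2) * (μ - 1).choose (k - 3)) ∧ #(cP F x y) ≤ μ.choose (k - 2)

/-- package LOW (uses SRC): many exceptional supports contain `x`, `y` -/
def LOWStm : Prop := ∀ (n k : ℕ) (F : Finset (Fin n → ℤ)), 3 ≤ k → (∀ v ∈ F, IsV n k v) →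
  ∀ x y : Fin n, x ≠ y → ∀ v ∈ F, ClashV F v x y → 
    ∃ μ : ℕ, #(DD F x y) + 2 + μ = n ∧ μ.choose (k - 2) ≤ #(exP k F x y)

open Classical in
/-- package SMALL: few vertices are dominated by almost all the other ones -/
def SMALLStm : Prop := ∀ (n m : ℕ) (A : Fin n → Fin n → Prop), (∀ x y, A x y → ¬ A y x) →
  #((univ : Finset (Fin n)).filter (fun x => n ≤ #(univ.filter (fun u => A u x)) + m + 1)) ≤ 2 * m + 1

/-- package BOUND (uses SUM, UP, LOW, SMALL): boundedly many exceptional supports -/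
def BOUNDStm : Prop := ∀ k : ℕ, 3 ≤ k → ∃ C : ℕ, ∀ n : ℕ, ∀ F, IndJ n k F →
  2 * n.choose k ≤ #F → #(EX k F) ≤ C

/-- package TOP: a digraph in which all but boundedly many `k`-sets have a source -/
def TOPStm : Prop := ∀ k C : ℕ, 3 ≤ k → ∃ n₀ : ℕ, ∀ n : ℕ, n₀ ≤ n →
  ∀ (A : Fin n → Fin n → Prop) (E : Finset (Finset (Fin n))), (∀ x y, A x y → ¬ A y x) →
  #E ≤ C → (∀ S ∈ E, #S = k) →
  (∀ S : Finset (Fin n), #S = k → S ∉ E → ∃ f ∈ S, ∀ y ∈ S, y ≠ f → A f y) →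
  ∃ (T V : Finset (Fin n)) (v₁ : Fin n), v₁ ∈ V ∧ v₁ ∉ T ∧ 2 * k ≤ #V ∧
    (∀ S ∈ E, Disjoint S V) ∧
    (∀ t ∈ T, ∀ u, u ∉ T → A t u) ∧
    (∀ t ∈ T, ∀ t' ∈ T, t ≠ t' → A t t' ∨ A t' t) ∧
    (∀ u, u ∉ T → u ≠ v₁ → A v₁ u)

open Classical in
/-- package CON: the construction.  `c` is a sign vector, all members of `F₁` have supports disjoint
from `T` and exactly one coordinate of the support where they differ from `c`. -/
def CONStm : Prop := ∀ (n k : ℕ), 1 ≤ k → ∀ (T : Finset (Fin n)) (c : Fin n → ℤ),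
  (∀ i, c i = 1 ∨ c i = -1) → ∀ F₁ : Finset (Fin n → ℤ), IndJ n k F₁ →
  (∀ v ∈ F₁, Disjoint (supp v) T ∧ #((supp v).filter (fun i => v i ≠ c i)) = 1) →
  ∃ F', IndK n k F' ∧
    2 * #((powersetCard k (univ : Finset (Fin n))).filter (fun S => ¬ Disjoint S T)) +
      #((powersetCard k (univ : Finset (Fin n))).filter (fun S => Disjoint S T)) + #F₁ ≤ #F'

open Classical in
/-- package CEN: the structure of `F`, given the output of TOP -/
def CENStm : Prop := ∀ (n k : ℕ) (F : Finset (Fin n → ℤ)), 3 ≤ k → IndJ n k F →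
  ∀ (T V : Finset (Fin n)) (v₁ : Fin n), v₁ ∈ V → v₁ ∉ T → 2 * k ≤ #V →
    (∀ S ∈ EX k F, Disjoint S V) →
    (∀ t ∈ T, ∀ u, u ∉ T → Arc F t u) →
    (∀ t ∈ T, ∀ t' ∈ T, t ≠ t' → Arc F t t' ∨ Arc F t' t) →
    (∀ u, u ∉ T → u ≠ v₁ → Arc F v₁ u) →
  (∀ S : Finset (Fin n), #S = k → ¬ Disjoint S T → #(fib F S) ≤ 2) ∧
  ∃ c : Fin n → ℤ, (∀ i, c i = 1 ∨ c i = -1) ∧
    ∀ v ∈ F, Disjoint (supp v) T → #((supp v).filter (fun i => v i ≠ c i)) ≤ 1

/-- package ASM: everything together -/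
def ASMStm : Prop := SRCStm → BOUNDStm → TOPStm → CONStm → CENStm → GOALStm

end SJ
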